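import Pool.Agent.Lib.MP_688fd0_co.TF.Compat

/-!
# Theorem F, module HALL
-/

namespace Pool.Agent.Lib.MP_688fd0_co.TF.H65

open Pool.Agent.Lib.MP_688fd0_co.TE

universe u

section arcs

variable {G : Type u} [Group G] [Fintype G] [DecidableEq G] {c : Ctx G} {N : ℕ} (g : Gad c N)
  {m : ℕ} (lv : G → ZMod m)

theorem X_ge (c : Ctx G) : (10 ^ 6 : ℝ) ≤ c.X := by
  have h1 : (10 ^ 6 : ℕ) ≤ 10 ^ 6 * c.T * c.k * (c.r0 + 1) := by
    have := c.hT1
    have := c.hk1
    have h2 : 1 ≤ c.T * c.k * (c.r0 + 1) := by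
      have : 0 < c.T * c.k * (c.r0 + 1) := by positivity
      omega
    calc 10 ^ 6 = 10 ^ 6 * 1 := by norm_num
      _ ≤ 10 ^ 6 * (c.T * c.k * (c.r0 + 1)) := Nat.mul_le_mul_left _ h2
      _ = _ := by ring
  have h2 : (10 ^ 6 : ℝ) ≤ ((10 ^ 6 * c.T * c.k * (c.r0 + 1) : ℕ) : ℝ) := by exact_mod_cast h1
  have h3 : ((10 ^ 6 * c.T * c.k * (c.r0 + 1) : ℕ) : ℝ) ≤
      ((10 ^ 6 * c.T * c.k * (c.r0 + 1) : ℕ) : ℝ) ^ 200 :=
    le_self_pow₀ (by linarith [show (1:ℝ) ≤ 10 ^ 6 by norm_num]) (by norm_num)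
  exact h2.trans (h3.trans c.hX)

theorem m_ge (c : Ctx G) {m : ℕ} (hm : c.mOK m) : (10 ^ 6 : ℝ) ≤ m := by
  have h := X_ge c
  have h3 : c.X ≤ c.X ^ 1000 :=
    le_self_pow₀ (by linarith [show (1:ℝ) ≤ 10 ^ 6 by norm_num]) (by norm_num)
  exact h.trans (h3.trans hm.1)

theorem aB_nonneg (x y : G) : 0 ≤ g.aB lv x y := by
  unfold Gad.aB Ctx.b
  exact mul_nonneg (by positivity) (ind_nonneg _)

theorem aC_nonneg (x y : G) : 0 ≤ g.aC lv x y := by
  unfold Gad.aC
  refine mul_nonneg ?_ (ind_nonneg _)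
  have : (0 : ℝ) ≤ c.X ^ 100 := Even.pow_nonneg (by decide) _
  positivity

theorem aB_ne {x y : G} (h : g.aB lv x y ≠ 0) :
    g.RR x ∧ g.CC y ∧ (lv y = lv x + 1 ∨ lv y = lv x + 2) := by
  by_contra h'
  apply h
  unfold Gad.aB
  rw [ind_not, mul_zero]
  intro h2
  exact h' ⟨h2.1, h2.2.1, h2.2.2.2.2⟩

theorem aC_ne {x y : G} (h : g.aC lv x y ≠ 0) :
    g.RR x ∧ g.CC y ∧ lv x = 0 ∧ lv y = 1 := by
  by_contra h'
  apply h
  unfold Gad.aC
  rw [ind_not, mul_zero]
  intro h2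
  exact h' ⟨Or.inl h2.1, Or.inl h2.2.1, h2.2.2.2⟩

theorem a_ind (x y : G) :
    ind (g.RR x) * (g.aB lv x y + g.aC lv x y) = g.aB lv x y + g.aC lv x y ∧
    ind (g.CC y) * (g.aB lv x y + g.aC lv x y) = g.aB lv x y + g.aC lv x y := by
  by_cases hB : g.aB lv x y = 0
  · by_cases hC : g.aC lv x y = 0
    · rw [hB, hC]; simp
    · obtain ⟨h1, h2, -⟩ := aC_ne g lv hC
      rw [ind_of h1, ind_of h2]; simp
  · obtain ⟨h1, h2, -⟩ := aB_ne g lv hB
    rw [ind_of h1, ind_of h2]; simp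

theorem psi_eq (u v : G → ℝ) :
    g.Psi lv u v = ∑ x, ind (g.RR x) * u x - ∑ y, ind (g.CC y) * v y -
      ∑ x, ∑ y, (g.aB lv x y + g.aC lv x y) * (u x - v y) := by
  unfold Gad.Psi Gad.rx Gad.ry
  have h1 : ∑ x, ind (g.RR x) * (1 - ∑ y, (g.aB lv x y + g.aC lv x y)) * u x =
      ∑ x, ind (g.RR x) * u x - ∑ x, ∑ y, (g.aB lv x y + g.aC lv x y) * u x := by
    rw [← Finset.sum_sub_distrib]
    refine Finset.sum_congr rfl fun x _ => ?_
    rw [mul_sub, mul_one, sub_mul, Finset.mul_sum, Finset.sum_mul]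
    congr 1
    refine Finset.sum_congr rfl fun y _ => ?_
    rw [(a_ind g lv x y).1]
  have h2 : ∑ y, ind (g.CC y) * (1 - ∑ x, (g.aB lv x y + g.aC lv x y)) * v y =
      ∑ y, ind (g.CC y) * v y - ∑ x, ∑ y, (g.aB lv x y + g.aC lv x y) * v y := by
    rw [Finset.sum_comm, ← Finset.sum_sub_distrib]
    refine Finset.sum_congr rfl fun y _ => ?_
    rw [mul_sub, mul_one, sub_mul, Finset.mul_sum, Finset.sum_mul]
    congr 1
    refine Finset.sum_congr rfl fun x _ => ?_
    rw [(a_ind g lv x y).2]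
  rw [h1, h2]
  have h3 : ∑ x, ∑ y, (g.aB lv x y + g.aC lv x y) * (u x - v y) =
      ∑ x, ∑ y, (g.aB lv x y + g.aC lv x y) * u x -
      ∑ x, ∑ y, (g.aB lv x y + g.aC lv x y) * v y := by
    rw [← Finset.sum_sub_distrib]
    refine Finset.sum_congr rfl fun x _ => ?_
    rw [← Finset.sum_sub_distrib]
    refine Finset.sum_congr rfl fun y _ => ?_
    ring
  rw [h3]; ring

theorem bb_eq [NeZero m] (h12 : (1 : ZMod m) ≠ 2) (u v : G → ℝ) :
    g.bb lv u v = ∑ x, ∑ y, (g.aB lv x y + g.aC lv x y) * |u x - v y| := by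
  unfold Gad.bb Gad.bc Gad.b2
  have h : ∀ i : ZMod m,
      (∑ x, ∑ y, ind (lv x = i ∧ lv y = i + 1) * (g.aB lv x y + g.aC lv x y) * |u x - v y|) +
      (∑ x, ∑ y, ind (lv x = i ∧ lv y = i + 2) * g.aB lv x y * |u x - v y|) =
      ∑ x, ∑ y, ind (lv x = i) * (ind (lv y = lv x + 1) * (g.aB lv x y + g.aC lv x y) +
        ind (lv y = lv x + 2) * g.aB lv x y) * |u x - v y| := by
    intro i
    rw [← Finset.sum_add_distrib]
    refine Finset.sum_congr rfl fun x _ => ?_
    rw [← Finset.sum_add_distrib]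
    refine Finset.sum_congr rfl fun y _ => ?_
    by_cases hx : lv x = i
    · subst hx
      simp only [true_and]
      rw [ind_of trivial]; ring
    · rw [ind_and, ind_and, ind_not hx]; ring
  simp only [h]
  rw [Finset.sum_comm]
  refine Finset.sum_congr rfl fun x _ => ?_
  rw [Finset.sum_comm]
  refine Finset.sum_congr rfl fun y _ => ?_
  rw [← Finset.sum_mul, ← Finset.sum_mul]
  have h1 : ∑ i : ZMod m, ind (lv x = i) = 1 := by
    rw [Finset.sum_eq_single (lv x)]
    · exact ind_of rfl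
    · intro b _ hb; exact ind_not (Ne.symm hb)
    · intro h; exact absurd (Finset.mem_univ _) h
  rw [h1, one_mul]
  congr 1
  by_cases hB : g.aB lv x y = 0
  · by_cases hC : g.aC lv x y = 0
    · rw [hB, hC]; simp
    · obtain ⟨-, -, h3, h4⟩ := aC_ne g lv hC
      rw [hB, ind_of (show lv y = lv x + 1 by rw [h3, h4, zero_add])]; ring
  · obtain ⟨-, -, h3 | h3⟩ := aB_ne g lv hB
    · rw [ind_of h3, ind_not (show ¬ lv y = lv x + 2 by
        rw [h3]; intro h4; exact h12 (add_left_cancel h4))]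
      ring
    · have hC : g.aC lv x y = 0 := by
        by_contra hC
        obtain ⟨-, -, h5, h6⟩ := aC_ne g lv hC
        rw [h5, h6, zero_add] at h3
        exact h12 h3
      rw [ind_of h3, ind_not (show ¬ lv y = lv x + 1 by
        rw [h3]; intro h4; exact h12 (add_left_cancel h4).symm), hC]
      ring

theorem one_ne_two_zmod {m : ℕ} (hm : (10 ^ 6 : ℝ) ≤ m) : (1 : ZMod m) ≠ 2 := by
  have hm' : 10 ^ 6 ≤ m := by exact_mod_cast hm
  intro h
  have h1 : ((1 : ℕ) : ZMod m) = ((2 : ℕ) : ZMod m) := by exact_mod_cast h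
  rw [ZMod.natCast_eq_natCast_iff] at h1
  unfold Nat.ModEq at h1
  rw [Nat.mod_eq_of_lt (by omega), Nat.mod_eq_of_lt (by omega)] at h1
  omega

end arcs

theorem hall.{v} (hp : PSIF_S.{v}) : HALLF_S.{v} := by
  classical
  intro G _ _ _ c N g m _ lv hN hm hl
  have h12 := one_ne_two_zmod (m_ge c hm)
  set a : G → G → ℝ := fun x y => g.aB lv x y + g.aC lv x y with ha
  have ha0 : ∀ x y, 0 ≤ a x y := fun x y => add_nonneg (aB_nonneg g lv x y) (aC_nonneg g lv x y)
  have key : ∀ u v : G → ℝ, (∀ x y, a x y ≠ 0 → u x ≤ v y) →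
      ∑ x, ind (g.RR x) * u x ≤ ∑ y, ind (g.CC y) * v y := by
    intro u v huv
    have h1 := psi_eq g lv u v
    have h2 := bb_eq g lv h12 u v
    have h3 := hp G c N g m lv hN hm hl u v
    have h4 : ∑ x, ∑ y, (g.aB lv x y + g.aC lv x y) * (u x - v y) = - g.bb lv u v := by
      rw [h2, ← Finset.sum_neg_distrib]
      refine Finset.sum_congr rfl fun x _ => ?_
      rw [← Finset.sum_neg_distrib]
      refine Finset.sum_congr rfl fun y _ => ?_
      by_cases hxy : a x y = 0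
      · have : g.aB lv x y + g.aC lv x y = 0 := hxy
        rw [this]; ring
      · rw [abs_of_nonpos (by linarith [huv x y hxy])]; ring
    have h5 : 0 ≤ g.bb lv u v := by
      rw [h2]
      exact Finset.sum_nonneg fun x _ => Finset.sum_nonneg fun y _ =>
        mul_nonneg (ha0 x y) (abs_nonneg _)
    rw [h4] at h1
    have h6 := (abs_le.1 h3).2
    linarith
  -- cardinalities
  have hcard : (Fintype.card {x // g.RR x} : ℝ) = Fintype.card {y // g.CC y} := by
    have h1 := psi_eq g lv (fun _ => 1) (fun _ => 1)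
    have h2 := bb_eq g lv h12 (fun _ => 1) (fun _ => 1)
    have h3 := hp G c N g m lv hN hm hl (fun _ => 1) (fun _ => 1)
    rw [h2] at h3
    simp only [sub_self, abs_zero, mul_zero, Finset.sum_const_zero, zero_div, sub_zero,
      mul_one] at h1 h3
    have h4 := abs_nonpos_iff.1 h3
    rw [h4] at h1
    have h5 : ∀ p : G → Prop, ∑ x, ind (p x) = (Fintype.card {x // p x} : ℝ) := by
      intro p
      rw [Fintype.card_subtype]
      simp only [ind, Finset.sum_boole]
    rw [h5, h5] at h1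
    linarith
  have hcard' : Fintype.card {x // g.RR x} = Fintype.card {y // g.CC y} := by
    exact_mod_cast hcard
  -- Hall
  let t : {x // g.RR x} → Finset {y // g.CC y} := fun x =>
    Finset.univ.filter fun y => 0 < a x.1 y.1
  have hall : ∀ s : Finset {x // g.RR x}, s.card ≤ (s.biUnion t).card := by
    intro s
    have h := key (fun x => ind (∃ h : g.RR x, (⟨x, h⟩ : {x // g.RR x}) ∈ s))
      (fun y => ind (∃ h : g.CC y, (⟨y, h⟩ : {y // g.CC y}) ∈ s.biUnion t)) (by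
        intro x y hxy
        apply ind_mono
        rintro ⟨h1, h2⟩
        have h3 : 0 < a x y := lt_of_le_of_ne (ha0 x y) (Ne.symm hxy)
        have h4 : g.CC y := by
          by_cases hB : g.aB lv x y = 0
          · by_cases hC : g.aC lv x y = 0
            · exact absurd (by rw [ha]; simp [hB, hC]) hxy
            · exact (aC_ne g lv hC).2.1
          · exact (aB_ne g lv hB).2.1
        refine ⟨h4, Finset.mem_biUnion.2 ⟨⟨x, h1⟩, h2, ?_⟩⟩
        exact Finset.mem_filter.2 ⟨Finset.mem_univ _, h3⟩)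
    have h5 : ∀ (p : G → Prop) (s : Finset {x // p x}),
        ∑ x, ind (p x) * ind (∃ h : p x, (⟨x, h⟩ : {x // p x}) ∈ s) = (s.card : ℝ) := by
      intro p s
      have h6 : ∀ x, ind (p x) * ind (∃ h : p x, (⟨x, h⟩ : {x // p x}) ∈ s) =
          if x ∈ s.map (Function.Embedding.subtype _) then (1 : ℝ) else 0 := by
        intro x
        by_cases hx : ∃ h : p x, (⟨x, h⟩ : {x // p x}) ∈ s
        · rw [ind_of hx, ind_of hx.1, if_pos]
          · norm_num
          · rw [Finset.mem_map]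
            exact ⟨⟨x, hx.1⟩, hx.2, rfl⟩
        · rw [ind_not hx, if_neg, mul_zero]
          rw [Finset.mem_map]
          rintro ⟨y, hy, rfl⟩
          exact hx ⟨y.2, hy⟩
      simp only [h6]
      rw [Finset.sum_boole, Finset.filter_mem_eq_inter, Finset.univ_inter, Finset.card_map]
    rw [h5, h5] at h
    exact_mod_cast h
  obtain ⟨f, hf1, hf2⟩ := (Finset.all_card_le_biUnion_card_iff_exists_injective t).1 hall
  have hbij : Function.Bijective f :=
    (Fintype.bijective_iff_injective_and_card f).2 ⟨hf1, hcard'⟩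
  refine ⟨fun x => if h : g.RR x then (f ⟨x, h⟩).1 else 1, ?_, ?_, ?_⟩
  · intro x hx
    simp only [dif_pos hx]
    refine ⟨(f ⟨x, hx⟩).2, ?_⟩
    exact (Finset.mem_filter.1 (hf2 ⟨x, hx⟩)).2
  · intro x x' hx hx' h
    simp only [dif_pos hx, dif_pos hx'] at h
    have := hf1 (Subtype.ext h)
    exact congrArg Subtype.val this
  · intro y hy
    obtain ⟨x, hx⟩ := hbij.2 ⟨y, hy⟩
    refine ⟨x.1, x.2, ?_⟩
    simp only [dif_pos x.2]
    rw [show (⟨x.1, x.2⟩ : {x // g.RR x}) = x from rfl, hx]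

end Pool.Agent.Lib.MP_688fd0_co.TF.H65
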