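import Pool.Agent.Lib.MP_688fd0_co.TF.H65.LevGood
import Pool.Agent.Lib.MP_688fd0_co.TF.H65.Hall

/-!
# Theorem F, modules REG2 and REG3
-/

namespace Pool.Agent.Lib.MP_688fd0_co.TF.H65

open Pool.Agent.Lib.MP_688fd0_co.TE

universe u

section det

variable {G : Type u} [Group G] [Fintype G] [DecidableEq G] {c : Ctx G} {N : ℕ} (g : Gad c N)
  {m : ℕ} [NeZero m] (lv : G → ZMod m)

theorem lg_e2 (hX : (10 ^ 6 : ℝ) ≤ c.X) (h : LG g lv) : g.e2 lv := by
  have hm0 : (0 : ℝ) < m := by exact_mod_cast Nat.pos_of_ne_zero (NeZero.ne m)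
  have hX0 : 0 < c.X := by linarith
  have hX1 : 1 ≤ c.X := by linarith [show (1:ℝ) ≤ 10 ^ 6 by norm_num]
  have hs : 1 / c.X ^ 300 ≤ 1 / 2 := by
    refine one_div_le_one_div_of_le (by norm_num) ?_
    calc (2 : ℝ) ≤ c.X := by linarith
      _ ≤ c.X ^ 300 := le_self_pow₀ hX1 (by norm_num)
  intro z i
  refine ⟨?_, ?_, ?_⟩
  · have h0 := (abs_le.1 (h 0 z i)).1
    have e0 : ∀ x, Qp g 0 x ↔ ¬ g.W x := fun x => by unfold Qp; simp
    simp only [e0] at h0
    rw [div_le_iff₀ (by positivity)]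
    nlinarith [h0, hs]
  · have h0 := (abs_le.1 (h 1 z i)).2
    have e0 : ∀ x, Qp g 1 x ↔ g.RR x := fun x => by unfold Qp; simp
    simp only [e0] at h0
    rw [le_div_iff₀ hm0]
    nlinarith [h0, hs]
  · have h0 := (abs_le.1 (h 2 z i)).2
    have e0 : ∀ x, Qp g 2 x ↔ g.CC x := fun x => by unfold Qp; simp
    simp only [e0] at h0
    rw [le_div_iff₀ hm0]
    nlinarith [h0, hs]

omit [NeZero m] in
/-- Sum of the weights of the `C`-arcs at a vertex. -/
theorem sum_aC (hMAT : MAT_S.{u}) (hX0 : 0 < c.X) (x : G) :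
    (0 ≤ ∑ y, g.aC lv x y ∧ ∑ y, g.aC lv x y ≤ 1 / c.X ^ 100) ∧
    (0 ≤ ∑ y, g.aC lv y x ∧ ∑ y, g.aC lv y x ≤ 1 / c.X ^ 100) := by
  have hDS := ((hMAT G).1 c.C c.hC).1
  have hle : ∀ x y, g.aC lv x y ≤ 1 / c.X ^ 100 * UM c.C x y := by
    intro x y
    unfold Gad.aC UM
    have h1 : ind (¬ g.W x ∧ ¬ g.W y ∧ x⁻¹ * y ∈ c.C ∧ lv x = 0 ∧ lv y = 1) ≤
        ind (x⁻¹ * y ∈ c.C) := ind_mono fun h => h.2.2.1
    have h2 : (0 : ℝ) ≤ 1 / c.X ^ 100 / (c.C.card : ℝ) := by positivity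
    calc _ ≤ 1 / c.X ^ 100 / (c.C.card : ℝ) * ind (x⁻¹ * y ∈ c.C) :=
          mul_le_mul_of_nonneg_left h1 h2
      _ = _ := by ring
  refine ⟨⟨Finset.sum_nonneg fun y _ => aC_nonneg g lv x y, ?_⟩,
    ⟨Finset.sum_nonneg fun y _ => aC_nonneg g lv y x, ?_⟩⟩
  · calc ∑ y, g.aC lv x y ≤ ∑ y, 1 / c.X ^ 100 * UM c.C x y :=
          Finset.sum_le_sum fun y _ => hle x y
      _ = 1 / c.X ^ 100 := by rw [← Finset.mul_sum, hDS.row x, mul_one]
  · calc ∑ y, g.aC lv y x ≤ ∑ y, 1 / c.X ^ 100 * UM c.C y x :=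
          Finset.sum_le_sum fun y _ => hle y x
      _ = 1 / c.X ^ 100 := by rw [← Finset.mul_sum, hDS.col x, mul_one]

omit [NeZero m] in
theorem aB_row (h12 : (1 : ZMod m) ≠ 2) {x : G} (hx : g.RR x) :
    ∃ q : Fin 3, ∀ y, g.aB lv x y = 1 / 2 * (m * (UM c.B x y * ind (Qp g q y ∧ lv y = lv x + 1))) +
      1 / 2 * (m * (UM c.B x y * ind (Qp g q y ∧ lv y = lv x + 2))) := by
  have key : ∀ q : Fin 3, (∀ y, Qp g q y ↔ (g.CC y ∧ ¬ (g.W x ∧ g.W y))) → ∀ y,
      g.aB lv x y = 1 / 2 * (m * (UM c.B x y * ind (Qp g q y ∧ lv y = lv x + 1))) +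
      1 / 2 * (m * (UM c.B x y * ind (Qp g q y ∧ lv y = lv x + 2))) := by
    intro q hq y
    unfold Gad.aB UM Ctx.b
    by_cases h1 : x⁻¹ * y ∈ c.B
    · by_cases h2 : Qp g q y
      · have h3 := (hq y).1 h2
        rw [ind_of h1]
        by_cases h4 : lv y = lv x + 1
        · have h5 : ¬ lv y = lv x + 2 := by
            rw [h4]; intro h; exact h12 (add_left_cancel h)
          rw [ind_of ⟨hx, h3.1, h1, h3.2, Or.inl h4⟩, ind_of ⟨h2, h4⟩, ind_not (fun h => h5 h.2)]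
          ring
        · by_cases h5 : lv y = lv x + 2
          · rw [ind_of ⟨hx, h3.1, h1, h3.2, Or.inr h5⟩, ind_not (fun h => h4 h.2), ind_of ⟨h2, h5⟩]
            ring
          · rw [ind_not (fun h => h.2.2.2.2.elim h4 h5), ind_not (fun h => h4 h.2),
              ind_not (fun h => h5 h.2)]
            ring
      · have h3 : ¬ (g.CC y ∧ ¬ (g.W x ∧ g.W y)) := fun h => h2 ((hq y).2 h)
        rw [ind_of h1, ind_not (fun h => h3 ⟨h.2.1, h.2.2.2.1⟩), ind_not (fun h => h2 h.1),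
          ind_not (fun h => h2 h.1)]
        ring
    · rw [ind_not h1, ind_not (fun h => h1 h.2.2.1)]
      ring
  by_cases hW : g.W x
  · refine ⟨0, key 0 fun y => ?_⟩
    unfold Qp
    simp only [if_true, hW, true_and]
    constructor
    · intro h; exact ⟨Or.inl h, h⟩
    · intro h; exact h.2
  · refine ⟨2, key 2 fun y => ?_⟩
    unfold Qp
    simp [hW]

omit [NeZero m] in
theorem aB_col (hMAT : MAT_S.{u}) (h12 : (1 : ZMod m) ≠ 2) {y : G} (hy : g.CC y) :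
    ∃ q : Fin 3, ∀ x, g.aB lv x y = 1 / 2 * (m * (UM c.B y x * ind (Qp g q x ∧ lv x = lv y - 1))) +
      1 / 2 * (m * (UM c.B y x * ind (Qp g q x ∧ lv x = lv y - 2))) := by
  have hsym : ∀ x, UM c.B x y = UM c.B y x := by
    intro x
    have h := ((hMAT G).1 c.B c.hB).2.2
    have h2 := congrFun (congrFun h y) x
    rw [Matrix.transpose_apply] at h2
    exact h2
  have key : ∀ q : Fin 3, (∀ x, Qp g q x ↔ (g.RR x ∧ ¬ (g.W x ∧ g.W y))) → ∀ x,
      g.aB lv x y = 1 / 2 * (m * (UM c.B y x * ind (Qp g q x ∧ lv x = lv y - 1))) +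
      1 / 2 * (m * (UM c.B y x * ind (Qp g q x ∧ lv x = lv y - 2))) := by
    intro q hq x
    rw [← hsym x]
    unfold Gad.aB UM Ctx.b
    have e1 : lv x = lv y - 1 ↔ lv y = lv x + 1 := by
      rw [eq_sub_iff_add_eq]; exact eq_comm
    have e2 : lv x = lv y - 2 ↔ lv y = lv x + 2 := by
      rw [eq_sub_iff_add_eq]; exact eq_comm
    simp only [e1, e2]
    by_cases h1 : x⁻¹ * y ∈ c.B
    · by_cases h2 : Qp g q x
      · have h3 := (hq x).1 h2
        rw [ind_of h1]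
        by_cases h4 : lv y = lv x + 1
        · have h5 : ¬ lv y = lv x + 2 := by
            rw [h4]; intro h; exact h12 (add_left_cancel h)
          rw [ind_of ⟨h3.1, hy, h1, h3.2, Or.inl h4⟩, ind_of ⟨h2, h4⟩, ind_not (fun h => h5 h.2)]
          ring
        · by_cases h5 : lv y = lv x + 2
          · rw [ind_of ⟨h3.1, hy, h1, h3.2, Or.inr h5⟩, ind_not (fun h => h4 h.2), ind_of ⟨h2, h5⟩]
            ring
          · rw [ind_not (fun h => h.2.2.2.2.elim h4 h5), ind_not (fun h => h4 h.2),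
              ind_not (fun h => h5 h.2)]
            ring
      · have h3 : ¬ (g.RR x ∧ ¬ (g.W x ∧ g.W y)) := fun h => h2 ((hq x).2 h)
        rw [ind_of h1, ind_not (fun h => h3 ⟨h.1, h.2.2.2.1⟩), ind_not (fun h => h2 h.1),
          ind_not (fun h => h2 h.1)]
        ring
    · rw [ind_not h1, ind_not (fun h => h1 h.2.2.1)]
      ring
  by_cases hW : g.W y
  · refine ⟨0, key 0 fun x => ?_⟩
    unfold Qp
    simp only [if_true, hW, and_true]
    constructor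
    · intro h; exact ⟨Or.inl h, h⟩
    · intro h; exact h.2
  · refine ⟨1, key 1 fun x => ?_⟩
    unfold Qp
    simp [hW]

omit [NeZero m] in
theorem lg_e3 (hMAT : MAT_S.{u}) (hX : (10 ^ 6 : ℝ) ≤ c.X) (h12 : (1 : ZMod m) ≠ 2)
    (h : LG g lv) : g.e3 lv := by
  have hX0 : 0 < c.X := by linarith
  have hX1 : 1 ≤ c.X := by linarith [show (1:ℝ) ≤ 10 ^ 6 by norm_num]
  have hs : 1 / c.X ^ 300 ≤ 1 / c.X ^ 100 :=
    one_div_le_one_div_of_le (by positivity) (pow_le_pow_right₀ hX1 (by norm_num))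
  have h2X : 2 / c.X ^ 100 = 1 / c.X ^ 100 + 1 / c.X ^ 100 := by ring
  constructor
  · intro x hx
    obtain ⟨q, hq⟩ := aB_row g lv h12 hx
    have hC := (sum_aC g lv hMAT hX0 x).1
    have hB : ∑ y, g.aB lv x y =
        1 / 2 * (m * ∑ y, UM c.B x y * ind (Qp g q y ∧ lv y = lv x + 1)) +
        1 / 2 * (m * ∑ y, UM c.B x y * ind (Qp g q y ∧ lv y = lv x + 2)) := by
      rw [Finset.mul_sum, Finset.mul_sum, Finset.mul_sum, Finset.mul_sum,
        ← Finset.sum_add_distrib]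
      exact Finset.sum_congr rfl fun y _ => hq y
    have h1 := abs_le.1 (h q x (lv x + 1))
    have h2 := abs_le.1 (h q x (lv x + 2))
    unfold Gad.rx
    rw [Finset.sum_add_distrib, hB, h2X, abs_le]
    constructor
    · linarith [h1.1, h1.2, h2.1, h2.2, hC.1, hC.2]
    · linarith [h1.1, h1.2, h2.1, h2.2, hC.1, hC.2]
  · intro y hy
    obtain ⟨q, hq⟩ := aB_col g lv hMAT h12 hy
    have hC := (sum_aC g lv hMAT hX0 y).2
    have hB : ∑ x, g.aB lv x y =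
        1 / 2 * (m * ∑ x, UM c.B y x * ind (Qp g q x ∧ lv x = lv y - 1)) +
        1 / 2 * (m * ∑ x, UM c.B y x * ind (Qp g q x ∧ lv x = lv y - 2)) := by
      rw [Finset.mul_sum, Finset.mul_sum, Finset.mul_sum, Finset.mul_sum,
        ← Finset.sum_add_distrib]
      exact Finset.sum_congr rfl fun x _ => hq x
    have h1 := abs_le.1 (h q y (lv y - 1))
    have h2 := abs_le.1 (h q y (lv y - 2))
    unfold Gad.ry
    rw [Finset.sum_add_distrib, hB, h2X, abs_le]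
    constructor
    · linarith [h1.1, h1.2, h2.1, h2.2, hC.1, hC.2]
    · linarith [h1.1, h1.2, h2.1, h2.2, hC.1, hC.2]

end det

theorem reg2.{v} (hMCD : MCD_S.{v, 0}) (hUPD : UPD_S.{v, 0}) (hNUM : NUMC_S.{v}) (hMAT : MAT_S.{v})
    (hPKS : PKSC_S.{v}) : REG2F_S.{v} := by
  intro G _ _ _ c N g m _ hN hm
  refine le_trans (pr_mono (isPr_unif' _).nn ?_)
    (lev_good hMCD hUPD hNUM hMAT hPKS g (by omega) hm)
  intro lam h1 h2
  exact h1 (lg_e2 g _ (X_ge c) h2)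

theorem reg3.{v} (hMCD : MCD_S.{v, 0}) (hUPD : UPD_S.{v, 0}) (hNUM : NUMC_S.{v}) (hMAT : MAT_S.{v})
    (hPKS : PKSC_S.{v}) : REG3F_S.{v} := by
  intro G _ _ _ c N g m _ hN hm
  refine le_trans (pr_mono (isPr_unif' _).nn ?_)
    (lev_good hMCD hUPD hNUM hMAT hPKS g (by omega) hm)
  intro lam h1 h2
  exact h1 (lg_e3 g _ hMAT (X_ge c) (one_ne_two_zmod (m_ge c hm)) h2)

end Pool.Agent.Lib.MP_688fd0_co.TF.H65
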