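import Pool.Agent.Lib.MP_688fd0_co.TF.Compat

/-!
# Theorem F: concentration of sums over the levels (used by REG2, REG3)

`lev_conc`: bounded differences for `∑ x, f x (g.lev lam x)`, where `lam` is uniform.
-/

namespace Pool.Agent.Lib.MP_688fd0_co.TF.H65

open Pool.Agent.Lib.MP_688fd0_co.TE

universe u

section key

variable {G : Type u} [Group G] [Fintype G] [DecidableEq G] {c : Ctx G} {N : ℕ} (g : Gad c N)

open scoped Classical in
/-- The coordinate read by `g.lev` at the vertex `x` (`none`: the level is the constant `0`). -/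
noncomputable def key (x : G) : Option (G ⊕ (G × G)) :=
  if ¬ g.W x then some (Sum.inl x)
  else if h : ∃ e, e ∈ g.res.E false ∧ (x = g.i false e ∨ x = g.o false e) then
    some (Sum.inr h.choose)
  else none

theorem lev_eq {m : ℕ} (lam : G ⊕ (G × G) → ZMod m) (x : G) :
    g.lev lam x = (key g x).elim 0 lam := by
  unfold Gad.lev key
  by_cases h1 : ¬ g.W x
  · rw [if_pos h1, if_pos h1]; rfl
  · rw [if_neg h1, if_neg h1]
    by_cases h2 : ∃ e, e ∈ g.res.E false ∧ (x = g.i false e ∨ x = g.o false e)
    · rw [dif_pos h2, dif_pos h2]; rfl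
    · rw [dif_neg h2, dif_neg h2]; rfl

theorem lev_update {m : ℕ} (lam : G ⊕ (G × G) → ZMod m) (x : G) (ι : G ⊕ (G × G)) (a : ZMod m)
    (h : key g x ≠ some ι) : g.lev (Function.update lam ι a) x = g.lev lam x := by
  rw [lev_eq, lev_eq]
  cases hk : key g x with
  | none => rfl
  | some κ =>
    have : κ ≠ ι := fun h' => h (by rw [hk, h'])
    simp only [Option.elim_some]
    exact Function.update_of_ne this _ _

theorem key_inl {x v : G} (h : key g x = some (Sum.inl v)) : ¬ g.W x ∧ x = v := by
  unfold key at h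
  by_cases h1 : ¬ g.W x
  · rw [if_pos h1] at h
    exact ⟨h1, Sum.inl.inj (Option.some.inj h)⟩
  · rw [if_neg h1] at h
    by_cases h2 : ∃ e, e ∈ g.res.E false ∧ (x = g.i false e ∨ x = g.o false e)
    · rw [dif_pos h2] at h
      exact absurd (Option.some.inj h) (by simp)
    · rw [dif_neg h2] at h
      exact absurd h (by simp)

theorem key_inr {x : G} {e : G × G} (h : key g x = some (Sum.inr e)) :
    g.W x ∧ e ∈ g.res.E false ∧ (x = g.i false e ∨ x = g.o false e) := by
  unfold key at h
  by_cases h1 : ¬ g.W x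
  · rw [if_pos h1] at h
    exact absurd (Option.some.inj h) (by simp)
  · rw [if_neg h1] at h
    by_cases h2 : ∃ e, e ∈ g.res.E false ∧ (x = g.i false e ∨ x = g.o false e)
    · rw [dif_pos h2] at h
      have h3 : h2.choose = e := Sum.inr.inj (Option.some.inj h)
      rw [← h3]
      exact ⟨not_not.1 h1, h2.choose_spec⟩
    · rw [dif_neg h2] at h
      exact absurd h (by simp)

theorem key_nW {x : G} (h : ¬ g.W x) : key g x = some (Sum.inl x) := by
  unfold key; rw [if_pos h]

theorem key_port {x : G} {e : G × G} (he : e ∈ g.res.E false)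
    (h : x = g.i false e ∨ x = g.o false e) : key g x ≠ none := by
  unfold key
  by_cases h1 : ¬ g.W x
  · rw [if_pos h1]; simp
  · rw [if_neg h1, dif_pos ⟨e, he, h⟩]; simp

theorem key_none {x : G} (h : key g x = none) :
    g.W x ∧ ∀ e ∈ g.res.E false, x ≠ g.i false e ∧ x ≠ g.o false e := by
  constructor
  · by_contra h1
    rw [key_nW g h1] at h
    exact absurd h (by simp)
  · intro e he
    exact ⟨fun h1 => key_port g he (Or.inl h1) h, fun h1 => key_port g he (Or.inr h1) h⟩

/-- The sum of `H` over the vertices with a given coordinate. -/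
theorem key_sum (H : G → ℝ) (β : ℝ) (hβ : ∀ x, H x ≤ β) (hb : 0 ≤ β)
    (ι : G ⊕ (G × G)) : ∑ x, H x * ind (key g x = some ι) ≤ 2 * β := by
  classical
  obtain ⟨a, b, hab⟩ : ∃ a b : G, ∀ x, key g x = some ι → x = a ∨ x = b := by
    rcases ι with v | e
    · exact ⟨v, v, fun x hx => Or.inl (key_inl g hx).2⟩
    · exact ⟨g.i false e, g.o false e, fun x hx => (key_inr g hx).2.2⟩
  calc ∑ x, H x * ind (key g x = some ι)
      ≤ ∑ x, ((if x = a then β else 0) + (if x = b then β else 0)) := by
        refine Finset.sum_le_sum fun x _ => ?_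
        by_cases hx : key g x = some ι
        · rw [ind_of hx, mul_one]
          rcases hab x hx with h | h
          · rw [if_pos h]
            have : (0 : ℝ) ≤ if x = b then β else 0 := by split <;> simp [hb]
            linarith [hβ x]
          · rw [if_pos h]
            have : (0 : ℝ) ≤ if x = a then β else 0 := by split <;> simp [hb]
            linarith [hβ x]
        · rw [ind_not hx, mul_zero]
          have h1 : (0 : ℝ) ≤ if x = a then β else 0 := by split <;> simp [hb]
          have h2 : (0 : ℝ) ≤ if x = b then β else 0 := by split <;> simp [hb]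
          linarith
    _ = 2 * β := by
        rw [Finset.sum_add_distrib, Finset.sum_ite_eq', Finset.sum_ite_eq',
          if_pos (Finset.mem_univ _), if_pos (Finset.mem_univ _)]
        ring

theorem key_sum_sum (H : G → ℝ) (h0 : ∀ x, 0 ≤ H x) :
    ∑ ι, ∑ x, H x * ind (key g x = some ι) ≤ ∑ x, H x := by
  rw [Finset.sum_comm]
  refine Finset.sum_le_sum fun x _ => ?_
  rw [← Finset.mul_sum]
  have h1 : ∑ ι, ind (key g x = some ι) ≤ 1 := by
    cases hk : key g x with
    | none =>
      rw [Finset.sum_eq_zero]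
      · norm_num
      · intro ι _; exact ind_not (by simp)
    | some κ =>
      rw [Finset.sum_eq_single κ]
      · exact ind_le_one _
      · intro ι _ hι
        exact ind_not (fun h => hι (Option.some.inj h).symm)
      · intro h; exact absurd (Finset.mem_univ _) h
  calc H x * ∑ ι, ind (key g x = some ι) ≤ H x * 1 := mul_le_mul_of_nonneg_left h1 (h0 x)
    _ = H x := mul_one _

/-- The mean of `f x (g.lev lam x)`. -/
noncomputable def kmean {m : ℕ} [NeZero m] (f : G → ZMod m → ℝ) (x : G) : ℝ :=
  (key g x).elim (f x 0) (fun _ => (∑ l, f x l) / m)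

end key

theorem unif_pi (ι : Type u) [Fintype ι] [DecidableEq ι] (α : Type) [Fintype α] :
    unifW (ι → α) = piW (fun _ : ι => unifW α) := by
  funext ω
  unfold unifW piW
  rw [Finset.prod_const, Finset.card_univ, Fintype.card_fun]
  push_cast
  rw [one_div, one_div, inv_pow]

theorem isPr_unif (α : Type) [Fintype α] [Nonempty α] : IsPr (unifW α) := by
  constructor
  · intro ω; unfold unifW; positivity
  · unfold unifW
    rw [Finset.sum_const, Finset.card_univ, nsmul_eq_mul]
    have : (Fintype.card α : ℝ) ≠ 0 := by exact_mod_cast Fintype.card_ne_zero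
    field_simp

theorem isPr_unif' (α : Type u) [Fintype α] [Nonempty α] : IsPr (unifW α) := by
  constructor
  · intro ω; unfold unifW; positivity
  · unfold unifW
    rw [Finset.sum_const, Finset.card_univ, nsmul_eq_mul]
    have : (Fintype.card α : ℝ) ≠ 0 := by exact_mod_cast Fintype.card_ne_zero
    field_simp

/-- Expectation of a function of one coordinate. -/
theorem ex_coord (hUPD : UPD_S.{u, 0}) {ι : Type u} [Fintype ι] [DecidableEq ι] {m : ℕ} [NeZero m]
    (i : ι) (f : ZMod m → ℝ) :
    Ex (unifW (ι → ZMod m)) (fun ω => f (ω i)) = (∑ l, f l) / m := by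
  have hp : ∀ _ : ι, IsPr (unifW (ZMod m)) := fun _ => isPr_unif (ZMod m)
  rw [unif_pi, (hUPD.1 ι (fun _ => ZMod m) (fun _ => unifW (ZMod m)) hp (fun ω => f (ω i)) i)]
  simp only [Function.update_self]
  have h1 : Ex (unifW (ZMod m)) (fun a => f a) = (∑ l, f l) / m := by
    unfold Ex unifW
    rw [ZMod.card, Finset.sum_div]
    refine Finset.sum_congr rfl fun l _ => ?_
    ring
  rw [h1]
  unfold Ex
  rw [← Finset.sum_mul, ← unif_pi, (isPr_unif' (ι → ZMod m)).one, one_mul]

/-- Bounded differences for sums of functions of the levels. -/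
theorem lev_conc (hMCD : MCD_S.{u, 0}) (hUPD : UPD_S.{u, 0}) {G : Type u} [Group G] [Fintype G]
    [DecidableEq G] {c : Ctx G} {N : ℕ} (g : Gad c N) {m : ℕ} [NeZero m]
    (f : G → ZMod m → ℝ) (H : G → ℝ) (β S δ : ℝ) (h0 : ∀ x, 0 ≤ H x) (hβ : ∀ x, H x ≤ β)
    (hf : ∀ x l l', |f x l - f x l'| ≤ H x) (hS : ∑ x, H x ≤ S) (hβ0 : 0 < β) (hS0 : 0 < S)
    (hδ : 0 < δ) :
    Pr (unifW (G ⊕ (G × G) → ZMod m)) (fun lam => δ ≤ |∑ x, f x (g.lev lam x) -
      ∑ x, kmean g f x|) ≤ 2 * Real.exp (-(δ ^ 2 / (2 * (2 * β * S)))) := by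
  have hp : ∀ _ : G ⊕ (G × G), IsPr (unifW (ZMod m)) := fun _ => isPr_unif (ZMod m)
  have hmean : Ex (unifW (G ⊕ (G × G) → ZMod m)) (fun lam => ∑ x, f x (g.lev lam x)) =
      ∑ x, kmean g f x := by
    unfold Ex
    simp only [Finset.mul_sum]
    rw [Finset.sum_comm]
    refine Finset.sum_congr rfl fun x _ => ?_
    unfold kmean
    simp only [lev_eq]
    cases hk : key g x with
    | none =>
      simp only [Option.elim_none]
      rw [← Finset.sum_mul, (isPr_unif' (G ⊕ (G × G) → ZMod m)).one, one_mul]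
    | some κ =>
      simp only [Option.elim_some]
      exact ex_coord hUPD κ (f x)
  rw [← hmean, unif_pi]
  refine hMCD (G ⊕ (G × G)) (fun _ => ZMod m) (fun _ => unifW (ZMod m)) hp
    (fun lam => ∑ x, f x (g.lev lam x)) (fun ι => ∑ x, H x * ind (key g x = some ι))
    (2 * β * S) δ ?_ ?_ (by positivity) hδ
  · intro ω ι a
    rw [← Finset.sum_sub_distrib]
    refine (Finset.abs_sum_le_sum_abs _ _).trans (Finset.sum_le_sum fun x _ => ?_)
    by_cases hk : key g x = some ι
    · rw [ind_of hk, mul_one]; exact hf x _ _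
    · rw [lev_update g ω x ι a hk, sub_self, abs_zero, ind_not hk, mul_zero]
  · calc ∑ ι, (∑ x, H x * ind (key g x = some ι)) ^ 2
        ≤ ∑ ι, 2 * β * ∑ x, H x * ind (key g x = some ι) := by
          refine Finset.sum_le_sum fun ι _ => ?_
          rw [sq]
          refine mul_le_mul_of_nonneg_right (key_sum g H β hβ hβ0.le ι) ?_
          exact Finset.sum_nonneg fun x _ => mul_nonneg (h0 x) (ind_nonneg _)
      _ = 2 * β * ∑ ι, ∑ x, H x * ind (key g x = some ι) := by rw [Finset.mul_sum]
      _ ≤ 2 * β * S := by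
          refine mul_le_mul_of_nonneg_left ((key_sum_sum g H h0).trans hS) (by positivity)

end Pool.Agent.Lib.MP_688fd0_co.TF.H65
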