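import Pool.Agent.Lib.MP_688fd0_co.TF.H65.LevConc

/-!
# Theorem F: the numbers of rows and columns of every level around every vertex

`LG`: for all `z`, `j`: `m` times the `B`-density around `z` of vertices (outside the gadgets, rows,
columns) of level `j` is `1` up to `X ^ (-300)`. `lev_good`: this holds with high probability.
-/

namespace Pool.Agent.Lib.MP_688fd0_co.TF.H65

open Pool.Agent.Lib.MP_688fd0_co.TE

universe u

section defs

variable {G : Type u} [Group G] [Fintype G] [DecidableEq G] {c : Ctx G} {N : ℕ} (g : Gad c N)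

/-- The three classes of vertices: outside of the gadgets, rows, columns. -/
def Qp (q : Fin 3) (x : G) : Prop := if q = 0 then ¬ g.W x else if q = 1 then g.RR x else g.CC x

/-- Good levels. -/
def LG {m : ℕ} (lv : G → ZMod m) : Prop :=
  ∀ (q : Fin 3) (z : G) (j : ZMod m),
    |(m : ℝ) * ∑ x, UM c.B z x * ind (Qp g q x ∧ lv x = j) - 1| ≤ 1 / c.X ^ 300

theorem Qp_of_nW (q : Fin 3) {x : G} (h : ¬ g.W x) : Qp g q x := by
  unfold Qp
  split
  · exact h
  · split
    · exact Or.inl h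
    · exact Or.inl h

theorem port_mem {τ : Bool} {e : G × G} (he : e ∈ g.res.E τ) :
    g.i τ e ∈ g.Vs τ e ∧ g.o τ e ∈ g.Vs τ e := by
  have h := g.ok τ e he
  constructor
  · rw [← h.av]; exact List.mem_of_head? h.ah
  · rw [← h.av]; exact List.mem_of_getLast? h.al

/-- A row or column with constant level lies in a gadget of kind 1. -/
theorem Qp_none (q : Fin 3) {x : G} (hq : Qp g q x) (hk : key g x = none) :
    ∃ e ∈ g.res.E true, x ∈ g.Vs true e := by
  obtain ⟨hW, hp⟩ := key_none g hk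
  unfold Qp at hq
  split at hq
  · exact absurd hW hq
  · split at hq
    · rcases hq with h | ⟨τ, e, he, hx⟩
      · exact absurd hW h
      · cases τ with
        | false => exact absurd hx (hp e he).2
        | true => exact ⟨e, he, hx ▸ (port_mem g he).2⟩
    · rcases hq with h | ⟨τ, e, he, hx⟩
      · exact absurd hW h
      · cases τ with
        | false => exact absurd hx (hp e he).1
        | true => exact ⟨e, he, hx ▸ (port_mem g he).1⟩

theorem ind_W_le (x : G) : ind (g.W x) ≤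
    ind (∃ e ∈ g.res.E false, x ∈ g.Vs false e) + ind (∃ e ∈ g.res.E true, x ∈ g.Vs true e) := by
  by_cases h : g.W x
  · obtain ⟨τ, h'⟩ := h
    cases τ with
    | false =>
      rw [ind_of (show ∃ e ∈ g.res.E false, x ∈ g.Vs false e from h')]
      linarith [ind_le_one (g.W x), ind_nonneg (∃ e ∈ g.res.E true, x ∈ g.Vs true e)]
    | true =>
      rw [ind_of (show ∃ e ∈ g.res.E true, x ∈ g.Vs true e from h')]
      linarith [ind_le_one (g.W x), ind_nonneg (∃ e ∈ g.res.E false, x ∈ g.Vs false e)]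
  · rw [ind_not h]
    exact add_nonneg (ind_nonneg _) (ind_nonneg _)

end defs

theorem pr_union {Ω : Type u} [Fintype Ω] {μ : Ω → ℝ} (hμ : ∀ ω, 0 ≤ μ ω) {κ : Type u} [Fintype κ]
    (E : κ → Ω → Prop) (A : Ω → Prop) (hA : ∀ ω, A ω → ∃ k, E k ω) : Pr μ A ≤ ∑ k, Pr μ (E k) := by
  unfold Pr
  rw [Finset.sum_comm]
  refine Finset.sum_le_sum fun ω _ => ?_
  rw [← Finset.mul_sum]
  refine mul_le_mul_of_nonneg_left ?_ (hμ ω)
  by_cases h : A ω
  · obtain ⟨k, hk⟩ := hA ω h
    rw [ind_of h, ← ind_of hk]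
    exact Finset.single_le_sum (f := fun k => ind (E k ω)) (fun i _ => ind_nonneg _)
      (Finset.mem_univ k)
  · rw [ind_not h]
    exact Finset.sum_nonneg fun i _ => ind_nonneg _

theorem pr_mono {Ω : Type u} [Fintype Ω] {μ : Ω → ℝ} (hμ : ∀ ω, 0 ≤ μ ω) {A B : Ω → Prop}
    (h : ∀ ω, A ω → B ω) : Pr μ A ≤ Pr μ B :=
  Finset.sum_le_sum fun ω _ => mul_le_mul_of_nonneg_left (ind_mono (h ω)) (hμ ω)

/-- Deterministic estimate of the mean. -/
theorem mean_bound (hMAT : MAT_S.{u}) (hPKS : PKSC_S.{u}) {G : Type u} [Group G] [Fintype G]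
    [DecidableEq G] {c : Ctx G} {N : ℕ} (g : Gad c N) {m : ℕ} [NeZero m] (hN : 1 ≤ N)
    (hX : (10 ^ 6 : ℝ) ≤ c.X) (hm : c.mOK m) (q : Fin 3) (z : G) (j : ZMod m) :
    |(m : ℝ) * ∑ x, kmean g (fun x l => UM c.B z x * ind (Qp g q x ∧ l = j)) x - 1| ≤
      2 / c.X ^ 390 := by
  obtain ⟨-, -, -, -, -, -, -, -, -, hmono, hTK, -⟩ := hPKS G c
  have hTKN := hmono 1 N _ hN hTK
  have hDS := ((hMAT G).1 c.B c.hB).1
  have hX0 : 0 < c.X := by linarith
  have hX1 : 1 ≤ c.X := by linarith [show (1:ℝ) ≤ 10 ^ 6 by norm_num]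
  have hm0 : (0 : ℝ) < m := by exact_mod_cast Nat.pos_of_ne_zero (NeZero.ne m)
  have hl0 : ∑ x, UM c.B z x * ind (∃ e ∈ g.res.E false, x ∈ g.Vs false e) ≤ 1 / c.X ^ 390 := by
    have h := g.light false _ hTKN z
    refine le_trans (le_of_eq ?_) h
    exact Finset.sum_congr rfl fun x _ => mul_comm _ _
  have hl1 : ∑ x, UM c.B z x * ind (∃ e ∈ g.res.E true, x ∈ g.Vs true e) ≤ 1 / c.X ^ 2990 := by
    have h := g.light true _ hTKN z
    refine le_trans (le_of_eq ?_) h
    exact Finset.sum_congr rfl fun x _ => mul_comm _ _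
  have hlow : 1 - 1 / c.X ^ 390 - 1 / c.X ^ 2990 ≤ ∑ x, UM c.B z x * ind (¬ g.W x) := by
    have h1 : ∑ x, UM c.B z x * ind (g.W x) ≤ 1 / c.X ^ 390 + 1 / c.X ^ 2990 := by
      calc ∑ x, UM c.B z x * ind (g.W x) ≤
          ∑ x, (UM c.B z x * ind (∃ e ∈ g.res.E false, x ∈ g.Vs false e) +
            UM c.B z x * ind (∃ e ∈ g.res.E true, x ∈ g.Vs true e)) := by
            refine Finset.sum_le_sum fun x _ => ?_
            rw [← mul_add]
            exact mul_le_mul_of_nonneg_left (ind_W_le g x) (hDS.nn z x)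
        _ ≤ _ := by rw [Finset.sum_add_distrib]; linarith
    have h2 : ∑ x, UM c.B z x * ind (¬ g.W x) = 1 - ∑ x, UM c.B z x * ind (g.W x) := by
      rw [← hDS.row z, ← Finset.sum_sub_distrib]
      refine Finset.sum_congr rfl fun x _ => ?_
      by_cases h : g.W x
      · rw [ind_of h, ind_not (not_not.2 h)]; ring
      · rw [ind_not h, ind_of h]; ring
    rw [h2]; linarith
  have hsum1 : ∀ a : ZMod m, ∑ l : ZMod m, ind (l = a) = 1 := by
    intro a
    rw [Finset.sum_eq_single a]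
    · exact ind_of rfl
    · intro b _ hb; exact ind_not hb
    · intro h; exact absurd (Finset.mem_univ _) h
  have hkm : ∀ x, key g x ≠ none →
      kmean g (fun x l => UM c.B z x * ind (Qp g q x ∧ l = j)) x =
        UM c.B z x * ind (Qp g q x) / m := by
    intro x hx
    unfold kmean
    cases hk : key g x with
    | none => exact absurd hk hx
    | some κ =>
      simp only [Option.elim_some, ind_and]
      rw [← Finset.mul_sum, ← Finset.mul_sum, hsum1, mul_one]
  have hkn : ∀ x, key g x = none →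
      kmean g (fun x l => UM c.B z x * ind (Qp g q x ∧ l = j)) x =
        UM c.B z x * ind (Qp g q x ∧ 0 = j) := by
    intro x hx
    unfold kmean
    rw [hx]; rfl
  have hup : (m : ℝ) * ∑ x, kmean g (fun x l => UM c.B z x * ind (Qp g q x ∧ l = j)) x ≤
      1 + m * (1 / c.X ^ 2990) := by
    have h1 : (m : ℝ) * ∑ x, kmean g (fun x l => UM c.B z x * ind (Qp g q x ∧ l = j)) x ≤
        ∑ x, (UM c.B z x + m * (UM c.B z x * ind (∃ e ∈ g.res.E true, x ∈ g.Vs true e))) := by
      rw [Finset.mul_sum]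
      refine Finset.sum_le_sum fun x _ => ?_
      have hnn := hDS.nn z x
      by_cases hk : key g x = none
      · rw [hkn x hk]
        by_cases hq : Qp g q x
        · rw [ind_of (Qp_none g q hq hk), mul_one]
          have h3 : UM c.B z x * ind (Qp g q x ∧ 0 = j) ≤ UM c.B z x * 1 :=
            mul_le_mul_of_nonneg_left (ind_le_one _) hnn
          have h4 := mul_le_mul_of_nonneg_left h3 hm0.le
          rw [mul_one] at h4
          linarith
        · rw [ind_not (fun h => hq h.1), mul_zero, mul_zero]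
          have := ind_nonneg (∃ e ∈ g.res.E true, x ∈ g.Vs true e)
          positivity
      · rw [hkm x hk]
        have h3 : (m : ℝ) * (UM c.B z x * ind (Qp g q x) / m) = UM c.B z x * ind (Qp g q x) := by
          field_simp
        rw [h3]
        have h4 : UM c.B z x * ind (Qp g q x) ≤ UM c.B z x * 1 :=
          mul_le_mul_of_nonneg_left (ind_le_one _) hnn
        have h5 := ind_nonneg (∃ e ∈ g.res.E true, x ∈ g.Vs true e)
        have h6 : 0 ≤ (m : ℝ) * (UM c.B z x * ind (∃ e ∈ g.res.E true, x ∈ g.Vs true e)) := by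
          positivity
        linarith
    refine h1.trans ?_
    rw [Finset.sum_add_distrib, ← Finset.mul_sum, hDS.row z]
    have := mul_le_mul_of_nonneg_left hl1 hm0.le
    linarith
  have hlo : 1 - 1 / c.X ^ 390 - 1 / c.X ^ 2990 ≤
      (m : ℝ) * ∑ x, kmean g (fun x l => UM c.B z x * ind (Qp g q x ∧ l = j)) x := by
    refine hlow.trans ?_
    rw [Finset.mul_sum]
    refine Finset.sum_le_sum fun x _ => ?_
    have hnn := hDS.nn z x
    by_cases hW : g.W x
    · rw [ind_not (not_not.2 hW), mul_zero]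
      refine mul_nonneg hm0.le ?_
      by_cases hk : key g x = none
      · rw [hkn x hk]; exact mul_nonneg hnn (ind_nonneg _)
      · rw [hkm x hk]; exact div_nonneg (mul_nonneg hnn (ind_nonneg _)) hm0.le
    · have hk : key g x ≠ none := by rw [key_nW g hW]; simp
      rw [hkm x hk, ind_of (Qp_of_nW g q hW), ind_of hW]
      have h3 : (m : ℝ) * (UM c.B z x * 1 / m) = UM c.B z x * 1 := by field_simp
      rw [h3]
  -- numerical conclusion
  have hp390 : 0 < c.X ^ 390 := by positivity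
  have hp2990 : 0 < c.X ^ 2990 := by positivity
  have hn1 : 1 / c.X ^ 2990 ≤ 1 / c.X ^ 390 :=
    one_div_le_one_div_of_le hp390 (pow_le_pow_right₀ hX1 (by norm_num))
  have hn2 : (m : ℝ) * (1 / c.X ^ 2990) ≤ 2 / c.X ^ 390 := by
    have h3 : (m : ℝ) * (1 / c.X ^ 2990) ≤ 2 * c.X ^ 1000 * (1 / c.X ^ 2990) :=
      mul_le_mul_of_nonneg_right hm.2 (by positivity)
    refine h3.trans ?_
    rw [mul_one_div, div_le_div_iff₀ hp2990 hp390]
    have h4 : c.X ^ 1000 * c.X ^ 390 ≤ c.X ^ 2990 := by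
      rw [← pow_add]
      exact pow_le_pow_right₀ hX1 (by norm_num)
    nlinarith [h4]
  rw [abs_le]
  constructor
  · have : 2 / c.X ^ 390 = 1 / c.X ^ 390 + 1 / c.X ^ 390 := by ring
    linarith
  · linarith

theorem lev_good (hMCD : MCD_S.{u, 0}) (hUPD : UPD_S.{u, 0}) (hNUM : NUMC_S.{u}) (hMAT : MAT_S.{u})
    (hPKS : PKSC_S.{u}) {G : Type u} [Group G] [Fintype G] [DecidableEq G] {c : Ctx G} {N : ℕ}
    (g : Gad c N) {m : ℕ} [NeZero m] (hN : 1 ≤ N) (hm : c.mOK m) :
    Pr (unifW (G ⊕ (G × G) → ZMod m)) (fun lam => ¬ LG g (g.lev lam)) ≤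
      1 / (Fintype.card G : ℝ) ^ 2 := by
  obtain ⟨hX, -, -, -, -, -, -, hb0, hbX, hbn, -, -, hexp, -⟩ := hNUM G c
  have hDS := ((hMAT G).1 c.B c.hB).1
  have hUMb := (hMAT G).2.2.2.2.2.2.2 c.B c.hB
  have hX0 : 0 < c.X := by linarith
  have hX1 : 1 ≤ c.X := by linarith [show (1:ℝ) ≤ 10 ^ 6 by norm_num]
  have hm0 : (0 : ℝ) < m := by exact_mod_cast Nat.pos_of_ne_zero (NeZero.ne m)
  have hn0 : (0 : ℝ) < Fintype.card G := lt_of_lt_of_le hb0 hbn
  -- the exponent
  set M : ℝ := (1 / c.X ^ 2000) ^ 2 / (2 * (2 * (1 / c.b) * 1)) with hMdef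
  have hM : c.X ≤ M := by
    have h1 : M = c.b / (4 * c.X ^ 4000) := by
      rw [hMdef, div_pow, one_pow, ← pow_mul]
      field_simp
      ring
    rw [h1, le_div_iff₀ (by positivity)]
    calc c.X * (4 * c.X ^ 4000) ≤ c.X * (c.X * c.X ^ 4000) := by
          refine mul_le_mul_of_nonneg_left ?_ hX0.le
          exact mul_le_mul_of_nonneg_right (by linarith) (by positivity)
      _ = c.X ^ 4002 := by rw [← pow_succ', ← pow_succ']
      _ ≤ c.X ^ 200000 := pow_le_pow_right₀ hX1 (by norm_num)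
      _ ≤ c.b := hbX
  have hone : ∀ k : Fin 3 × G × ZMod m, Pr (unifW (G ⊕ (G × G) → ZMod m))
      (fun lam => ¬ (|(m : ℝ) * ∑ x, UM c.B k.2.1 x * ind (Qp g k.1 x ∧ g.lev lam x = k.2.2) - 1| ≤
        1 / c.X ^ 300)) ≤ 2 / (Fintype.card G : ℝ) ^ 40 := by
    rintro ⟨q, z, j⟩
    have hc := lev_conc hMCD hUPD g (fun x l => UM c.B z x * ind (Qp g q x ∧ l = j))
      (fun x => UM c.B z x) (1 / c.b) 1 (1 / c.X ^ 2000) (fun x => hDS.nn z x)
      (fun x => hUMb z x) (by
        intro x l l'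
        rw [← mul_sub, abs_mul, abs_of_nonneg (hDS.nn z x)]
        have h1 : |ind (Qp g q x ∧ l = j) - ind (Qp g q x ∧ l' = j)| ≤ 1 := by
          rw [abs_le]
          constructor
          · linarith [ind_nonneg (Qp g q x ∧ l = j), ind_le_one (Qp g q x ∧ l' = j)]
          · linarith [ind_nonneg (Qp g q x ∧ l' = j), ind_le_one (Qp g q x ∧ l = j)]
        calc UM c.B z x * _ ≤ UM c.B z x * 1 := mul_le_mul_of_nonneg_left h1 (hDS.nn z x)
          _ = _ := mul_one _) (le_of_eq (hDS.row z)) (by positivity) one_pos (by positivity)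
    have hexp1 : 2 * Real.exp (-M) ≤ 2 / (Fintype.card G : ℝ) ^ 40 := by
      rw [le_div_iff₀ (by positivity), mul_assoc]
      have := hexp M hM
      linarith
    refine le_trans (pr_mono (isPr_unif' _).nn ?_) (hc.trans hexp1)
    intro lam hlam
    by_contra hcon
    apply hlam
    have hmb := mean_bound hMAT hPKS g hN hX hm q z j
    rw [not_le] at hcon
    simp only
    set A := ∑ x, UM c.B z x * ind (Qp g q x ∧ g.lev lam x = j) with hA
    set E := ∑ x, kmean g (fun x l => UM c.B z x * ind (Qp g q x ∧ l = j)) x with hE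
    have h1 : |(m : ℝ) * A - m * E| ≤ 2 / c.X ^ 1000 := by
      rw [← mul_sub, abs_mul, abs_of_pos hm0]
      calc (m : ℝ) * |A - E| ≤ 2 * c.X ^ 1000 * (1 / c.X ^ 2000) :=
            mul_le_mul hm.2 hcon.le (abs_nonneg _) (by positivity)
        _ = 2 / c.X ^ 1000 := by
            rw [show (2000 : ℕ) = 1000 + 1000 from rfl, pow_add]
            field_simp
    have h2 : |(m : ℝ) * A - 1| ≤ 2 / c.X ^ 1000 + 2 / c.X ^ 390 := by
      calc |(m : ℝ) * A - 1| = |((m : ℝ) * A - m * E) + (m * E - 1)| := by ring_nf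
        _ ≤ |(m : ℝ) * A - m * E| + |m * E - 1| := abs_add_le _ _
        _ ≤ _ := add_le_add h1 hmb
    refine h2.trans ?_
    have h3 : 2 / c.X ^ 1000 ≤ 2 / c.X ^ 390 :=
      div_le_div_of_nonneg_left (by norm_num) (by positivity)
        (pow_le_pow_right₀ hX1 (by norm_num))
    have h4 : 4 / c.X ^ 390 ≤ 1 / c.X ^ 300 := by
      rw [div_le_div_iff₀ (by positivity) (by positivity)]
      calc 4 * c.X ^ 300 ≤ c.X * c.X ^ 300 :=
            mul_le_mul_of_nonneg_right (by linarith) (by positivity)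
        _ = c.X ^ 301 := by rw [← pow_succ']
        _ ≤ c.X ^ 390 := pow_le_pow_right₀ hX1 (by norm_num)
        _ = 1 * c.X ^ 390 := (one_mul _).symm
    have h5 : 4 / c.X ^ 390 = 2 / c.X ^ 390 + 2 / c.X ^ 390 := by ring
    linarith
  let κ := ULift.{u} (Fin 3 × G × ZMod m)
  have hun := pr_union (isPr_unif' (G ⊕ (G × G) → ZMod m)).nn (κ := κ)
    (fun k lam => ¬ (|(m : ℝ) * ∑ x, UM c.B k.down.2.1 x *
      ind (Qp g k.down.1 x ∧ g.lev lam x = k.down.2.2) - 1| ≤ 1 / c.X ^ 300))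
    (fun lam => ¬ LG g (g.lev lam)) (by
      intro lam hlam
      unfold LG at hlam
      push Not at hlam
      obtain ⟨q, z, j, h⟩ := hlam
      exact ⟨⟨(q, z, j)⟩, not_le.2 h⟩)
  refine hun.trans ?_
  have hsum : ∑ k : κ, Pr (unifW (G ⊕ (G × G) → ZMod m))
      (fun lam => ¬ (|(m : ℝ) * ∑ x, UM c.B k.down.2.1 x *
      ind (Qp g k.down.1 x ∧ g.lev lam x = k.down.2.2) - 1| ≤ 1 / c.X ^ 300)) ≤
      ∑ _k : κ, 2 / (Fintype.card G : ℝ) ^ 40 :=
    Finset.sum_le_sum fun k _ => hone k.down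
  refine hsum.trans ?_
  rw [Finset.sum_const, Finset.card_univ, nsmul_eq_mul]
  have hκ : (Fintype.card κ : ℝ) = 3 * (Fintype.card G * m) := by
    rw [show Fintype.card κ = Fintype.card (Fin 3 × G × ZMod m) from
      Fintype.card_congr Equiv.ulift, Fintype.card_prod, Fintype.card_prod, Fintype.card_fin,
      ZMod.card]
    push_cast; ring
  rw [hκ]
  have hmn : (m : ℝ) ≤ Fintype.card G := by
    calc (m : ℝ) ≤ 2 * c.X ^ 1000 := hm.2
      _ ≤ c.X * c.X ^ 1000 := mul_le_mul_of_nonneg_right (by linarith) (by positivity)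
      _ = c.X ^ 1001 := by rw [← pow_succ']
      _ ≤ c.X ^ 200000 := pow_le_pow_right₀ hX1 (by norm_num)
      _ ≤ c.b := hbX
      _ ≤ _ := hbn
  have hn6 : (10 ^ 6 : ℝ) ≤ Fintype.card G := by
    calc (10 ^ 6 : ℝ) ≤ c.X := hX
      _ ≤ c.X ^ 200000 := le_self_pow₀ hX1 (by norm_num)
      _ ≤ c.b := hbX
      _ ≤ _ := hbn
  set n : ℝ := (Fintype.card G : ℝ) with hn
  calc 3 * (n * m) * (2 / n ^ 40) ≤ 3 * (n * n) * (2 / n ^ 40) := by
        refine mul_le_mul_of_nonneg_right ?_ (by positivity)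
        exact mul_le_mul_of_nonneg_left (mul_le_mul_of_nonneg_left hmn hn0.le) (by norm_num)
    _ = 6 / n ^ 38 := by
        rw [show (40 : ℕ) = 2 + 38 from rfl, pow_add]; field_simp; norm_num
    _ ≤ 1 / n ^ 2 := by
        rw [div_le_div_iff₀ (by positivity) (by positivity)]
        calc 6 * n ^ 2 ≤ n * n ^ 2 := mul_le_mul_of_nonneg_right (by linarith) (by positivity)
          _ = n ^ 3 := by ring
          _ ≤ n ^ 38 := pow_le_pow_right₀ (by linarith) (by norm_num)
          _ = 1 * n ^ 38 := (one_mul _).symm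

end Pool.Agent.Lib.MP_688fd0_co.TF.H65
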